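import Mathlib

/-!
# Extreme points of the subtour polytope have at most `2n - 3` edges (for MP_33911d_co)

`rank_le`: rank of a family of vectors indexed by sets closed under intersection and union of intersecting members
(`φ A + φ B = φ (A ∩ B) + φ (A ∪ B)`), by induction, without laminar families. `card_supp`: an extreme point of the
subtour polytope of `G` has at most `2n - 3` edges in its support. `exists_sub`: a fractional Hamiltonian cycle of `G` can
be replaced by one of a subgraph `H` with exactly `2n - 3` edges.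
-/

set_option autoImplicit false

namespace H9X

open Finset

/-- Rank of an intersecting family. -/
theorem rank_le {V E : Type} [DecidableEq V] [AddCommGroup E] [Module ℝ E] [FiniteDimensional ℝ E]
    (F : Set (Finset V)) (φ : Finset V → E)
    (h : ∀ A ∈ F, ∀ B ∈ F, (A ∩ B).Nonempty → A ∩ B ∈ F ∧ A ∪ B ∈ F ∧ φ A + φ B = φ (A ∩ B) + φ (A ∪ B))
    (hne : ∀ A ∈ F, A.Nonempty) : ∀ (m : ℕ) (W : Finset V), W.card = m → W.Nonempty →
      Module.finrank ℝ (Submodule.span ℝ (φ '' {B | B ∈ F ∧ B ⊆ W})) + 1 ≤ 2 * W.card := by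
  classical
  intro m
  induction m using Nat.strong_induction_on with
  | _ m ih =>
  intro W hW hWne
  have hW1 : 1 ≤ W.card := Finset.card_pos.mpr hWne
  rcases ((W.powerset).filter (fun A => A ∈ F ∧ A ≠ W)).eq_empty_or_nonempty with h0 | hne'
  · have hsub : Submodule.span ℝ (φ '' {B | B ∈ F ∧ B ⊆ W}) ≤ Submodule.span ℝ {φ W} := by
      rw [Submodule.span_le]
      rintro _ ⟨B, ⟨hB, hBW⟩, rfl⟩
      have hBeq : B = W := by
        by_contra hc
        have : B ∈ (W.powerset).filter (fun A => A ∈ F ∧ A ≠ W) := by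
          rw [Finset.mem_filter, Finset.mem_powerset]; exact ⟨hBW, hB, hc⟩
        rw [h0] at this
        simp at this
      rw [hBeq]
      exact Submodule.mem_span_singleton_self _
    have h1 := Submodule.finrank_mono hsub
    have h2 : Module.finrank ℝ (Submodule.span ℝ {φ W}) ≤ 1 := by
      simpa using finrank_span_le_card (R := ℝ) ({φ W} : Set E)
    omega
  · obtain ⟨A, hA, hmax⟩ := Finset.exists_max_image _ Finset.card hne'
    rw [Finset.mem_filter, Finset.mem_powerset] at hA
    obtain ⟨hAW, hAF, hAne⟩ := hA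
    have hA1 : A.Nonempty := hne A hAF
    have hss : A ⊂ W := ⟨hAW, fun hc => hAne (Finset.Subset.antisymm hAW hc)⟩
    have hAcard : A.card < W.card := Finset.card_lt_card hss
    have hdcard : (W \ A).card = W.card - A.card := Finset.card_sdiff_of_subset hAW
    have hA1' : 1 ≤ A.card := Finset.card_pos.mpr hA1
    have hdne : (W \ A).Nonempty := by rw [← Finset.card_pos]; omega
    have hsub : Submodule.span ℝ (φ '' {B | B ∈ F ∧ B ⊆ W}) ≤
        Submodule.span ℝ {φ W} ⊔ (Submodule.span ℝ (φ '' {B | B ∈ F ∧ B ⊆ A}) ⊔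
          Submodule.span ℝ (φ '' {B | B ∈ F ∧ B ⊆ W \ A})) := by
      rw [Submodule.span_le]
      rintro _ ⟨B, ⟨hB, hBW⟩, rfl⟩
      have hin : ∀ C, C ∈ F → C ⊆ A → φ C ∈ Submodule.span ℝ {φ W} ⊔ (Submodule.span ℝ (φ '' {B | B ∈ F ∧ B ⊆ A}) ⊔
          Submodule.span ℝ (φ '' {B | B ∈ F ∧ B ⊆ W \ A})) := fun C hC hCA =>
        Submodule.mem_sup_right (Submodule.mem_sup_left (Submodule.subset_span ⟨C, ⟨hC, hCA⟩, rfl⟩))
      have hWin : φ W ∈ Submodule.span ℝ {φ W} ⊔ (Submodule.span ℝ (φ '' {B | B ∈ F ∧ B ⊆ A}) ⊔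
          Submodule.span ℝ (φ '' {B | B ∈ F ∧ B ⊆ W \ A})) :=
        Submodule.mem_sup_left (Submodule.mem_span_singleton_self _)
      by_cases hBA : (A ∩ B).Nonempty
      · obtain ⟨h1, h2, h3⟩ := h A hAF B hB hBA
        by_cases hU : A ∪ B = W
        · have h4 : φ B = φ (A ∩ B) + φ W - φ A := by
            rw [← hU, ← h3]; abel
          rw [h4]
          exact Submodule.sub_mem _ (Submodule.add_mem _ (hin _ h1 Finset.inter_subset_left) hWin)
            (hin _ hAF (Finset.Subset.refl _))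
        · have h5 : (A ∪ B).card ≤ A.card := hmax _ (by
            rw [Finset.mem_filter, Finset.mem_powerset]
            exact ⟨Finset.union_subset hAW hBW, h2, hU⟩)
          have h6 : A = A ∪ B := Finset.eq_of_subset_of_card_le Finset.subset_union_left h5
          exact hin B hB (by rw [h6]; exact Finset.subset_union_right)
      · refine Submodule.mem_sup_right (Submodule.mem_sup_right (Submodule.subset_span ⟨B, ⟨hB, ?_⟩, rfl⟩))
        intro z hz
        rw [Finset.mem_sdiff]
        refine ⟨hBW hz, fun hzA => hBA ⟨z, by rw [Finset.mem_inter]; exact ⟨hzA, hz⟩⟩⟩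
    have e1 := ih A.card (by omega) A rfl hA1
    have e2 := ih (W \ A).card (by omega) (W \ A) rfl hdne
    have e3 := Submodule.finrank_mono hsub
    have e4 := Submodule.finrank_add_le_finrank_add_finrank (Submodule.span ℝ {φ W})
      (Submodule.span ℝ (φ '' {B | B ∈ F ∧ B ⊆ A}) ⊔ Submodule.span ℝ (φ '' {B | B ∈ F ∧ B ⊆ W \ A}))
    have e5 := Submodule.finrank_add_le_finrank_add_finrank (Submodule.span ℝ (φ '' {B | B ∈ F ∧ B ⊆ A}))
      (Submodule.span ℝ (φ '' {B | B ∈ F ∧ B ⊆ W \ A}))
    have e6 : Module.finrank ℝ (Submodule.span ℝ {φ W}) ≤ 1 := by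
      simpa using finrank_span_le_card (R := ℝ) ({φ W} : Set E)
    omega

/-- `1` if the pair `e` crosses `S`. -/
noncomputable def cr {V : Type} (S : Finset V) (e : Sym2 V) : ℝ := by
  classical
  exact Sym2.lift ⟨fun u v => if (u ∈ S ↔ v ∈ S) then (0 : ℝ) else 1, fun u v => by simp only [iff_comm]⟩ e

theorem cr_mk {V : Type} [DecidableEq V] (S : Finset V) (u v : V) :
    cr S s(u, v) = if (u ∈ S ↔ v ∈ S) then (0 : ℝ) else 1 := by
  unfold cr
  simp only [Sym2.lift_mk]
  congr

theorem cr_nonneg {V : Type} (S : Finset V) (e : Sym2 V) : 0 ≤ cr S e := by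
  classical
  induction e using Sym2.ind with
  | _ u v =>
    rw [cr_mk]
    split_ifs <;> norm_num

theorem cr_compl {V : Type} [Fintype V] [DecidableEq V] (S : Finset V) (e : Sym2 V) : cr Sᶜ e = cr S e := by
  induction e using Sym2.ind with
  | _ u v =>
    rw [cr_mk, cr_mk]
    by_cases hu : u ∈ S <;> by_cases hv : v ∈ S <;> simp [hu, hv]

theorem cr_sub {V : Type} [DecidableEq V] (A B : Finset V) (e : Sym2 V) :
    0 ≤ cr A e + cr B e - cr (A ∩ B) e - cr (A ∪ B) e := by
  induction e using Sym2.ind with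
  | _ u v =>
    rw [cr_mk, cr_mk, cr_mk, cr_mk]
    by_cases hu : u ∈ A <;> by_cases hv : v ∈ A <;> by_cases hu' : u ∈ B <;> by_cases hv' : v ∈ B <;>
      simp [hu, hv, hu', hv']

/-- The weight of the cut `S`. -/
noncomputable def cut {V : Type} [Fintype V] [DecidableEq V] (y : Sym2 V → ℝ) (S : Finset V) : ℝ := ∑ e, cr S e * y e

theorem conv {V : Type} [Fintype V] [DecidableEq V] (y : Sym2 V → ℝ) (S : Finset V) :
    ∑ u ∈ S, ∑ v ∈ Sᶜ, y s(u, v) = cut y S := by
  classical
  have h1 : cut y S = ∑ e ∈ Finset.univ.filter (fun e => cr S e ≠ 0), y e := by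
    unfold cut
    rw [Finset.sum_filter]
    apply Finset.sum_congr rfl
    intro e _
    induction e using Sym2.ind with
    | _ u v =>
      rw [cr_mk]
      split_ifs <;> simp_all
  rw [h1, ← Finset.sum_product']
  refine Finset.sum_bij (fun p _ => s(p.1, p.2)) ?_ ?_ ?_ ?_
  · rintro ⟨u, v⟩ hp
    rw [Finset.mem_product, Finset.mem_compl] at hp
    rw [Finset.mem_filter, cr_mk]
    simp [hp.1, hp.2]
  · rintro ⟨u, v⟩ hp ⟨u', v'⟩ hp' heq
    rw [Finset.mem_product, Finset.mem_compl] at hp hp'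
    simp only [Sym2.eq_iff] at heq
    rcases heq with ⟨h1, h2⟩ | ⟨h1, h2⟩
    · rw [h1, h2]
    · subst h1
      exact absurd hp.1 hp'.2
  · intro e he
    induction e using Sym2.ind with
    | _ u v =>
      rw [Finset.mem_filter, cr_mk] at he
      by_cases hu : u ∈ S
      · by_cases hv : v ∈ S
        · simp [hu, hv] at he
        · exact ⟨(u, v), by simp [hu, hv], rfl⟩
      · by_cases hv : v ∈ S
        · exact ⟨(v, u), by simp [hu, hv], Sym2.eq_swap⟩
        · simp [hu, hv] at he
  · rintro ⟨u, v⟩ _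
    rfl

/-- The feasible set. -/
def Pol {V : Type} [Fintype V] [DecidableEq V] (G : SimpleGraph V) : Set (Sym2 V → ℝ) :=
  {y | (∀ e, 0 ≤ y e) ∧ (∀ e, e ∉ G.edgeSet → y e = 0) ∧ (∀ v, cut y {v} = 2) ∧
    ∀ S : Finset V, S.Nonempty → S ≠ Finset.univ → 2 ≤ cut y S}

theorem cut_cont {V : Type} [Fintype V] [DecidableEq V] (S : Finset V) : Continuous fun y : Sym2 V → ℝ => cut y S := by
  unfold cut
  fun_prop

theorem Pol_compact {V : Type} [Fintype V] [DecidableEq V] (G : SimpleGraph V) : IsCompact (Pol G) := by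
  refine (isCompact_Icc (a := fun _ : Sym2 V => (0 : ℝ)) (b := fun _ => 2)).of_isClosed_subset ?_ ?_
  · have : Pol G = (⋂ e, {y : Sym2 V → ℝ | 0 ≤ y e}) ∩ ((⋂ e, ⋂ (_ : e ∉ G.edgeSet), {y : Sym2 V → ℝ | y e = 0}) ∩
        ((⋂ v, {y : Sym2 V → ℝ | cut y {v} = 2}) ∩
          ⋂ S : Finset V, ⋂ (_ : S.Nonempty), ⋂ (_ : S ≠ Finset.univ), {y : Sym2 V → ℝ | 2 ≤ cut y S})) := by
      ext y
      simp [Pol]
    rw [this]
    refine (isClosed_iInter fun e => isClosed_le continuous_const (continuous_apply e)).inter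
      ((isClosed_iInter fun e => isClosed_iInter fun _ => isClosed_eq (continuous_apply e) continuous_const).inter
        ((isClosed_iInter fun v => isClosed_eq (cut_cont _) continuous_const).inter
          (isClosed_iInter fun S => isClosed_iInter fun _ => isClosed_iInter fun _ =>
            isClosed_le continuous_const (cut_cont _))))
  · rintro y ⟨h0, h1, h2, h3⟩
    refine ⟨fun e => h0 e, fun e => ?_⟩
    by_cases he : e ∈ G.edgeSet
    · induction e using Sym2.ind with
      | _ u v =>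
        have huv : u ≠ v := G.ne_of_adj he
        have h4 := h2 u
        unfold cut at h4
        have h5 : cr {u} s(u, v) * y s(u, v) ≤ ∑ e, cr {u} e * y e :=
          Finset.single_le_sum (f := fun e => cr {u} e * y e)
            (fun e _ => mul_nonneg (cr_nonneg _ _) (h0 e)) (Finset.mem_univ _)
        rw [cr_mk] at h5
        simp [huv.symm] at h5
        rw [← h4]
        simpa using h5
    · rw [h1 e he]; norm_num

/-- The number of edges in the support of an extreme point. -/
theorem card_supp {V : Type} [Fintype V] [DecidableEq V] (G : SimpleGraph V) (hV : 2 ≤ Fintype.card V)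
    (y : Sym2 V → ℝ) (hy : y ∈ (Pol G).extremePoints ℝ) :
    (Finset.univ.filter (fun e => y e ≠ 0)).card + 3 ≤ 2 * Fintype.card V := by
  classical
  rw [mem_extremePoints] at hy
  obtain ⟨hyP, hext⟩ := hy
  obtain ⟨h0, h1, h2, h3⟩ := hyP
  obtain ⟨r⟩ : Nonempty V := Fintype.card_pos_iff.mp (by omega)
  set W : Finset V := Finset.univ.erase r with hWdef
  have hWcard : W.card = Fintype.card V - 1 := by
    rw [hWdef, Finset.card_erase_of_mem (Finset.mem_univ _), Finset.card_univ]
  have hWne : W.Nonempty := by rw [← Finset.card_pos]; omega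
  have hWS : ∀ S : Finset V, S ⊆ W → S ≠ Finset.univ := by
    intro S hS hc
    have : r ∈ W := hS (by rw [hc]; exact Finset.mem_univ _)
    simp [hWdef] at this
  let ι := {e : Sym2 V // y e ≠ 0}
  let F : Set (Finset V) := {S | S.Nonempty ∧ S ⊆ W ∧ cut y S = 2}
  let φ : Finset V → (ι → ℝ) := fun S e => cr S e.1
  have hF : ∀ A ∈ F, ∀ B ∈ F, (A ∩ B).Nonempty → A ∩ B ∈ F ∧ A ∪ B ∈ F ∧ φ A + φ B = φ (A ∩ B) + φ (A ∪ B) := by
    rintro A ⟨hA1, hA2, hA3⟩ B ⟨hB1, hB2, hB3⟩ hAB
    have hi : A ∩ B ⊆ W := Finset.inter_subset_left.trans hA2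
    have hu : A ∪ B ⊆ W := Finset.union_subset hA2 hB2
    have hune : (A ∪ B).Nonempty := hA1.mono Finset.subset_union_left
    have c1 := h3 (A ∩ B) hAB (hWS _ hi)
    have c2 := h3 (A ∪ B) hune (hWS _ hu)
    have hsum : ∑ e, (cr A e + cr B e - cr (A ∩ B) e - cr (A ∪ B) e) * y e =
        cut y A + cut y B - cut y (A ∩ B) - cut y (A ∪ B) := by
      unfold cut
      rw [← Finset.sum_add_distrib, ← Finset.sum_sub_distrib, ← Finset.sum_sub_distrib]
      exact Finset.sum_congr rfl (fun e _ => by ring)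
    have hterm : ∀ e ∈ (Finset.univ : Finset (Sym2 V)),
        0 ≤ (cr A e + cr B e - cr (A ∩ B) e - cr (A ∪ B) e) * y e :=
      fun e _ => mul_nonneg (cr_sub A B e) (h0 e)
    have hge := Finset.sum_nonneg hterm
    have hz : ∑ e, (cr A e + cr B e - cr (A ∩ B) e - cr (A ∪ B) e) * y e = 0 := by
      apply le_antisymm _ hge
      rw [hsum, hA3, hB3]; linarith
    have hall := (Finset.sum_eq_zero_iff_of_nonneg hterm).mp hz
    rw [hsum, hA3, hB3] at hz
    refine ⟨⟨hAB, hi, by linarith⟩, ⟨hune, hu, by linarith⟩, ?_⟩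
    funext e
    have h5 := hall e.1 (Finset.mem_univ _)
    have h6 := (mul_eq_zero.mp h5).resolve_right e.2
    simp only [φ, Pi.add_apply]
    linarith
  have hrank := rank_le F φ hF (fun A hA => hA.1) W.card W rfl hWne
  have hcardι : Module.finrank ℝ (ι → ℝ) = (Finset.univ.filter (fun e => y e ≠ 0)).card := by
    rw [Module.finrank_fintype_fun_eq_card, Fintype.card_subtype]
  by_contra hlt
  push Not at hlt
  have hlt' : Submodule.span ℝ (φ '' {B | B ∈ F ∧ B ⊆ W}) < ⊤ := by
    rw [lt_top_iff_ne_top]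
    intro hc
    rw [hc, finrank_top, hcardι] at hrank
    omega
  obtain ⟨f, hf0, hf⟩ := Submodule.exists_le_ker_of_lt_top _ hlt'
  -- the direction
  let d : Sym2 V → ℝ := fun e => if h : y e ≠ 0 then f (Pi.single ⟨e, h⟩ 1) else 0
  have hd0 : ∀ e, y e = 0 → d e = 0 := by
    intro e he
    simp only [d]
    rw [dif_neg (by simp [he])]
  have hfv : ∀ v : ι → ℝ, f v = ∑ e : ι, v e * d e.1 := by
    intro v
    have hv : v = ∑ e : ι, v e • (Pi.single e (1 : ℝ) : ι → ℝ) := by
      funext e'
      rw [Finset.sum_apply, Finset.sum_eq_single e']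
      · simp
      · intro b _ hb
        simp [Ne.symm hb]
      · intro hc
        exact absurd (Finset.mem_univ _) hc
    conv_lhs => rw [hv]
    rw [map_sum]
    apply Finset.sum_congr rfl
    intro e _
    rw [map_smul, smul_eq_mul]
    congr 1
    simp only [d]
    rw [dif_pos e.2]
  have hcutd : ∀ S, cut d S = f (φ S) := by
    intro S
    rw [hfv]
    unfold cut
    simp only [φ]
    rw [← Finset.sum_filter_add_sum_filter_not Finset.univ (fun e => y e ≠ 0)]
    have hz : ∑ e ∈ Finset.univ.filter (fun e => ¬ y e ≠ 0), cr S e * d e = 0 := by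
      apply Finset.sum_eq_zero
      intro e he
      rw [Finset.mem_filter] at he
      rw [hd0 e (not_not.mp he.2), mul_zero]
    rw [hz, add_zero]
    exact (Finset.sum_subtype _ (fun e => by simp) _)
  have htight : ∀ S ∈ F, cut d S = 0 := by
    intro S hS
    rw [hcutd]
    exact hf (Submodule.subset_span ⟨S, ⟨hS, hS.2.1⟩, rfl⟩)
  have hcompl : ∀ (z : Sym2 V → ℝ) (S : Finset V), cut z Sᶜ = cut z S := by
    intro z S
    unfold cut
    exact Finset.sum_congr rfl (fun e _ => by rw [cr_compl])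
  have htight' : ∀ S : Finset V, S.Nonempty → S ≠ Finset.univ → cut y S = 2 → cut d S = 0 := by
    intro S hS1 hS2 hS3
    by_cases hr : r ∈ S
    · rw [← hcompl]
      apply htight
      refine ⟨?_, ?_, by rw [hcompl]; exact hS3⟩
      · by_contra hc
        rw [Finset.not_nonempty_iff_eq_empty, Finset.compl_eq_empty_iff] at hc
        exact hS2 hc
      · intro z hz
        rw [Finset.mem_compl] at hz
        rw [hWdef, Finset.mem_erase]
        exact ⟨fun h => hz (h ▸ hr), Finset.mem_univ _⟩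
    · apply htight
      refine ⟨hS1, ?_, hS3⟩
      intro z hz
      rw [hWdef, Finset.mem_erase]
      exact ⟨fun h => hr (h ▸ hz), Finset.mem_univ _⟩
  -- the step length
  have hsmall : ∀ a b : ℝ, 0 < a → ∀ᶠ ε in nhdsWithin (0 : ℝ) (Set.Ioi 0), ε * |b| < a := by
    intro a b ha
    have hc : Filter.Tendsto (fun ε : ℝ => ε * |b|) (nhdsWithin (0 : ℝ) (Set.Ioi 0)) (nhds (0 * |b|)) :=
      (Filter.tendsto_id.mul_const _).mono_left nhdsWithin_le_nhds
    rw [zero_mul] at hc
    exact hc.eventually (gt_mem_nhds ha)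
  have hev : ∀ᶠ ε in nhdsWithin (0 : ℝ) (Set.Ioi 0), (∀ e, y e ≠ 0 → ε * |d e| < y e) ∧
      ∀ S : Finset V, 2 < cut y S → ε * |cut d S| < cut y S - 2 := by
    rw [Filter.eventually_and]
    constructor
    · rw [Filter.eventually_all]
      intro e
      by_cases he : y e = 0
      · simp [he]
      · filter_upwards [hsmall (y e) (d e) (lt_of_le_of_ne (h0 e) (Ne.symm he))] with ε hε _
        exact hε
    · rw [Filter.eventually_all]
      intro S
      by_cases hS : 2 < cut y S
      · filter_upwards [hsmall (cut y S - 2) (cut d S) (by linarith)] with ε hε _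
        exact hε
      · simp [hS]
  obtain ⟨ε, ⟨hε1, hε2⟩, hε⟩ := (hev.and self_mem_nhdsWithin).exists
  have hεpos : 0 < ε := hε
  have hV1 : ∀ v : V, ({v} : Finset V) ≠ Finset.univ := by
    intro v hc
    have := congrArg Finset.card hc
    rw [Finset.card_singleton, Finset.card_univ] at this
    omega
  have hcutlin : ∀ (s : ℝ) (S : Finset V), cut (fun e => y e + s * d e) S = cut y S + s * cut d S := by
    intro s S
    unfold cut
    rw [Finset.mul_sum, ← Finset.sum_add_distrib]
    exact Finset.sum_congr rfl (fun e _ => by ring)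
  have hmem : ∀ s : ℝ, |s| ≤ ε → (fun e => y e + s * d e) ∈ Pol G := by
    intro s hs
    refine ⟨fun e => ?_, fun e he => ?_, fun v => ?_, fun S hS1 hS2 => ?_⟩
    · by_cases he : y e = 0
      · simp only
        rw [hd0 e he, he]; norm_num
      · have := hε1 e he
        have h7 : |s * d e| ≤ ε * |d e| := by
          rw [abs_mul]; exact mul_le_mul_of_nonneg_right hs (abs_nonneg _)
        have h8 := neg_abs_le (s * d e)
        simp only
        linarith
    · simp only
      rw [h1 e he, hd0 e (h1 e he)]; norm_num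
    · rw [hcutlin, h2 v, htight' {v} (Finset.singleton_nonempty v) (hV1 v) (h2 v)]; norm_num
    · rw [hcutlin]
      rcases eq_or_lt_of_le (h3 S hS1 hS2) with heq | hgt
      · rw [htight' S hS1 hS2 heq.symm, ← heq]; norm_num
      · have := hε2 S hgt
        have h7 : |s * cut d S| ≤ ε * |cut d S| := by
          rw [abs_mul]; exact mul_le_mul_of_nonneg_right hs (abs_nonneg _)
        have h8 := neg_abs_le (s * cut d S)
        linarith
  have hy1 := hmem ε (by rw [abs_of_pos hεpos])
  have hy2 := hmem (-ε) (by rw [abs_neg, abs_of_pos hεpos])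
  have hseg : y ∈ openSegment ℝ (fun e => y e + ε * d e) (fun e => y e + (-ε) * d e) := by
    refine ⟨1 / 2, 1 / 2, by norm_num, by norm_num, by norm_num, ?_⟩
    funext e
    simp only [Pi.add_apply, Pi.smul_apply, smul_eq_mul]
    ring
  have heq := (hext _ hy1 _ hy2 hseg).1
  apply hf0
  apply LinearMap.ext
  intro v
  rw [hfv]
  simp only [LinearMap.zero_apply]
  apply Finset.sum_eq_zero
  intro e _
  have h9 := congrFun heq e.1
  have h10 : ε * d e.1 = 0 := by
    have : y e.1 + ε * d e.1 = y e.1 := h9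
    linarith
  rw [(mul_eq_zero.mp h10).resolve_left hεpos.ne', mul_zero]

/-- A fractional Hamiltonian cycle of `G` can be replaced by one on a subgraph `H` with exactly `2n - 3` edges. -/
theorem exists_sub {V : Type} [Fintype V] [DecidableEq V] (hV : 2 ≤ Fintype.card V) (G : SimpleGraph V)
    (hE : 2 * Fintype.card V - 3 ≤ G.edgeSet.ncard) (x : V → V → ℝ) (symm : ∀ u v, x u v = x v u)
    (nonneg : ∀ u v, 0 ≤ x u v) (supp : ∀ u v, ¬ G.Adj u v → x u v = 0) (deg : ∀ v, ∑ w, x v w = 2)
    (hcut : ∀ S : Finset V, S.Nonempty → S ≠ Finset.univ → 2 ≤ ∑ u ∈ S, ∑ v ∈ Sᶜ, x u v) :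
    ∃ H : SimpleGraph V, H ≤ G ∧ H.edgeSet.ncard = 2 * Fintype.card V - 3 ∧ ∃ z : V → V → ℝ,
      (∀ u v, z u v = z v u) ∧ (∀ u v, 0 ≤ z u v) ∧ (∀ u v, ¬ H.Adj u v → z u v = 0) ∧ (∀ v, ∑ w, z v w = 2) ∧
      ∀ S : Finset V, S.Nonempty → S ≠ Finset.univ → 2 ≤ ∑ u ∈ S, ∑ v ∈ Sᶜ, z u v := by
  classical
  -- the degree as a cut
  have hdeg : ∀ (y : Sym2 V → ℝ), (∀ e, e ∉ G.edgeSet → y e = 0) → ∀ v, ∑ w, y s(v, w) = cut y {v} := by
    intro y hy v
    rw [← conv, Finset.sum_singleton, ← Finset.sum_add_sum_compl {v}, Finset.sum_singleton,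
      hy s(v, v) (by simp), zero_add]
  let y₀ : Sym2 V → ℝ := Sym2.lift ⟨x, symm⟩
  have hy₀ : ∀ u v, y₀ s(u, v) = x u v := fun u v => rfl
  have hy₀s : ∀ e, e ∉ G.edgeSet → y₀ e = 0 := by
    intro e he
    induction e using Sym2.ind with
    | _ u v => exact supp u v he
  have hne : (Pol G).Nonempty := by
    refine ⟨y₀, ?_, hy₀s, ?_, ?_⟩
    · intro e
      induction e using Sym2.ind with
      | _ u v => exact nonneg u v
    · intro v
      rw [← hdeg y₀ hy₀s]
      exact deg v
    · intro S h1 h2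
      rw [← conv]
      exact hcut S h1 h2
  obtain ⟨y, hy⟩ := (Pol_compact G).extremePoints_nonempty hne
  have hc := card_supp G hV y hy
  obtain ⟨h0, h1, h2, h3⟩ := (extremePoints_subset hy : y ∈ Pol G)
  -- the subgraph
  have hfin : G.edgeSet.Finite := Set.toFinite _
  have hsub : (Finset.univ.filter (fun e => y e ≠ 0)) ⊆ hfin.toFinset := by
    intro e he
    rw [Set.Finite.mem_toFinset]
    by_contra hce
    exact (Finset.mem_filter.mp he).2 (h1 e hce)
  obtain ⟨T, hT1, hT2, hT3⟩ := Finset.exists_subsuperset_card_eq hsub (n := 2 * Fintype.card V - 3) (by omega)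
    (by rw [← Set.ncard_eq_toFinset_card _ hfin]; exact hE)
  have hTG : ∀ e ∈ T, e ∈ G.edgeSet := fun e he => by
    have := hT2 he
    rwa [Set.Finite.mem_toFinset] at this
  have hTd : ∀ e ∈ T, ¬ e.IsDiag := fun e he => G.not_isDiag_of_mem_edgeSet (hTG e he)
  have hHe : (SimpleGraph.fromEdgeSet (T : Set (Sym2 V))).edgeSet = (T : Set (Sym2 V)) := by
    rw [SimpleGraph.edgeSet_fromEdgeSet]
    ext e
    simp only [Set.mem_sdiff, Finset.mem_coe]
    exact ⟨fun h => h.1, fun h => ⟨h, hTd e h⟩⟩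
  refine ⟨SimpleGraph.fromEdgeSet (T : Set (Sym2 V)), ?_, ?_, fun u v => y s(u, v), ?_, ?_, ?_, ?_, ?_⟩
  · intro u v huv
    rw [SimpleGraph.fromEdgeSet_adj] at huv
    exact hTG _ huv.1
  · rw [hHe, Set.ncard_coe_finset]
    exact hT3
  · intro u v
    simp only [Sym2.eq_swap]
  · intro u v
    exact h0 _
  · intro u v huv
    by_contra hyn
    apply huv
    rw [SimpleGraph.fromEdgeSet_adj]
    have : s(u, v) ∈ T := hT1 (by simp only [Finset.mem_filter, Finset.mem_univ, true_and]; exact hyn)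
    exact ⟨this, G.ne_of_adj (hTG _ this)⟩
  · intro v
    rw [hdeg y h1]
    exact h2 v
  · intro S hS1 hS2
    rw [conv]
    exact h3 S hS1 hS2

end H9X
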